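import Pool.Agent.Helper10.RK.GoalsK
import Pool.Agent.Helper36.RK.GoalsG
import Pool.Agent.Helper15.RK.DefsA

/-! # RK: the main theorem from the goals of the sections -/

open Complex Metric Set Filter Topology MeasureTheory
open scoped ContDiff ComplexConjugate ComplexOrder Manifold Matrix

namespace Pool.Agent.Helper10.RK

open Pool.Agent.Helper95.Lin Pool.Agent.Helper16.Abund Pool.Agent.Helper92.Orb
open Pool.Agent.Helper10.SP Pool.Agent.Helper95.RK Pool.Agent.Helper36.RK Pool.Agent.Helper15.RK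

universe u v

theorem mainrk (hGEO : S_GEOK.{u, v}) (hPER : S_PERG) (hDIS : S_DISFK.{u})
    (hSECT : S_SECTK.{u}) (hBACK : S_BACKK.{u, v}) : S_MAINRK.{u, v} := by
  intro b k G M _ _ _ _ _ _ _ h q v hb hD hq
  obtain ⟨N, c, R, E, Φ, Hf, C, hL, hF⟩ := hGEO hb hD hq
  have hR : 2 ≤ R := by
    have h1 := hF.fol.Rge
    have h2 := hF.fol.Cge
    linarith
  obtain ⟨lam, Om, hlam, hOm⟩ := hPER c R _ Φ Hf C _ hF.fol hF.kah
  have hdisc := hDIS c R _ _ Φ Hf C _ hF lam Om hlam hOm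
  obtain ⟨m, hm, hsec⟩ := hSECT c R _ _ Φ Hf C _ hF hdisc
  refine ⟨m, hm, fun p => ?_⟩
  obtain ⟨γ, z, hz, w, hw, hp⟩ := hL.cov p
  obtain ⟨g, hg1, hg2, hg3⟩ := hsec z hz
  obtain ⟨f, hf1, hf2⟩ := hBACK hD c R E Φ Hf hL hR m g hg1 hg2
  refine ⟨f, hf1, ?_⟩
  have hmem : ptK z w ∈ tubeK k (Bd c 2) := by
    have hbase : base (ptK z w) = z := by
      funext j
      simp [base, ptK]
    show base (ptK z w) ∈ Bd c 2
    rw [hbase]
    obtain ⟨i, hi⟩ := mem_iUnion.1 hz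
    exact mem_iUnion.2 ⟨i, ball_subset_ball (by norm_num) hi⟩
  have h1 := hf2 _ hmem (hg3 w)
  rw [← hp] at h1
  have h2 := hf1.2 γ⁻¹ (Subgroup.mem_top _) (γ • p)
  rw [inv_smul_smul] at h2
  intro h3
  rw [h3, zero_mul] at h2
  exact h1 h2.symm

/-- The curvature of the Hermitian metric of the canonical bundle given by the volume density `v` is
semipositive with `k`-dimensional kernel at every point. -/
def SemiposCorankK (n k : ℕ) (M : Type*) [TopologicalSpace M] [ChartedSpace (Fin n → ℂ) M]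
    (v : M → ℝ) : Prop :=
  ∀ (V : Set (Fin n → ℂ)) (ψ : (Fin n → ℂ) → M), Par n ψ V → CorankK k (lpot n v ψ) V

theorem orb_of_mainrk (hF : S_FRONT.{u, v}) (hM : S_MAINRK.{u, v}) {n k : ℕ} (hk : 0 < k)
    (hn : k < n) {G : Type u} {M : Type v} [Group G] [MulAction G M] [TopologicalSpace M]
    [T2Space M] [ConnectedSpace M] [ChartedSpace (Fin n → ℂ) M] [IsManifold 𝓘(ℂ, Fin n → ℂ) ω M]
    (hact : OrbAction n G M)
    (hprop : ∀ K : Set M, IsCompact K → {γ : G | ∃ y ∈ K, γ • y ∈ K}.Finite)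
    {h : M → Matrix (Fin n) (Fin n) ℂ} (hh : KahlerMetric n M h)
    (hinv : ∀ γ : G, InvMetric n h (fun y : M => γ • y))
    {v : M → ℝ} (hv : CanMetric n M v)
    (hvinv : ∀ (γ : G) (x : M), v (γ • x) * ‖jac n (fun y : M => γ • y) x‖ ^ 2 = v x)
    (hr : SemiposCorankK n k M v) {g : M → Matrix (Fin n) (Fin n) ℂ} (hg : HermMetric n M g)
    (hginv : ∀ γ : G, InvMetric n g (fun y : M => γ • y))
    (hneg : GNeg n M g v ∨ KahlerMetric n M g ∧ HNeg n M g v) : OrbSemiample n G M := by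
  obtain ⟨b, rfl⟩ : ∃ b, n = b + k := ⟨n - k, by omega⟩
  have hD : DataK b k G M h v := ⟨hact, hprop, hh, hinv, hv, hvinv, hr⟩
  exact hM (by omega) hD (hF hk hD ⟨hg, hginv, hneg⟩)

end Pool.Agent.Helper10.RK
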