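import Pool.Agent.Helper45.RK.GoalsJ
import Pool.Agent.Helper45.LinK.GoalsK
import Pool.Agent.Helper25.LinK.LATTK
import Pool.Agent.Helper60.LinK.BIEB
import Pool.Agent.Helper56.LinK.BQ
import Pool.Agent.Helper32.LinK.ZAS
import Pool.Agent.Helper62.LinK.FIXN

/-! # RK, packet AFB: Bieberbach's theorem for sets of affine maps

A copy of `Helper35/RK/AFB.lean` (by helper35) with smaller imports. -/

open Complex Metric Set Filter Topology
open scoped ContDiff ComplexConjugate Matrix ComplexOrder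

namespace Pool.Agent.Helper10.RK.AFBp

open Pool.Agent.Helper95.Lin Pool.Agent.Helper10.SP Pool.Agent.Helper95.RK Pool.Agent.Helper45.SP
  Pool.Agent.Helper45.RK Pool.Agent.Helper45.LinK

section grp

variable {k : ℕ} {𝒢 : Set (Matrix (Fin k) (Fin k) ℂ × Cn k)}

/-- The group of the affine maps. -/
@[reducible] noncomputable def afGroup (h : AffSet 𝒢) : Group {p // p ∈ 𝒢} :=
  letI : Mul {p // p ∈ 𝒢} :=
    ⟨fun p q => ⟨(p.1.1 * q.1.1, p.1.1 *ᵥ q.1.2 + p.1.2), h.mul _ p.2 _ q.2⟩⟩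
  letI : One {p // p ∈ 𝒢} := ⟨⟨(1, 0), h.one⟩⟩
  letI : Inv {p // p ∈ 𝒢} := ⟨fun p => ⟨(h.inv p.1 p.2).choose, (h.inv p.1 p.2).choose_spec.1⟩⟩
  Group.ofLeftAxioms
    (by
      rintro ⟨p, hp⟩ ⟨q, hq⟩ ⟨s, hs⟩
      apply Subtype.ext
      apply Prod.ext
      · exact Matrix.mul_assoc _ _ _
      · show (p.1 * q.1) *ᵥ s.2 + (p.1 *ᵥ q.2 + p.2) = p.1 *ᵥ (q.1 *ᵥ s.2 + q.2) + p.2
        rw [Matrix.mulVec_add, Matrix.mulVec_mulVec, add_assoc])
    (by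
      rintro ⟨p, hp⟩
      apply Subtype.ext
      apply Prod.ext
      · exact Matrix.one_mul _
      · show (1 : Matrix (Fin k) (Fin k) ℂ) *ᵥ p.2 + 0 = p.2
        rw [Matrix.one_mulVec, add_zero])
    (by
      rintro ⟨p, hp⟩
      apply Subtype.ext
      apply Prod.ext
      · exact (h.inv p hp).choose_spec.2.1
      · exact (h.inv p hp).choose_spec.2.2)

/-- The continuous linear map of a matrix. -/
noncomputable def mL (M : Matrix (Fin k) (Fin k) ℂ) : CE k :=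
  LinearMap.toContinuousLinearMap (Matrix.toLin' M)

theorem mL_apply (M : Matrix (Fin k) (Fin k) ℂ) (v : Cn k) : mL M v = M *ᵥ v := rfl

theorem mL_inj : Function.Injective (mL (k := k)) := by
  intro M N h
  have h1 : ∀ v : Cn k, M *ᵥ v = N *ᵥ v := fun v => by
    rw [← mL_apply, ← mL_apply, h]
  exact Matrix.ext_iff_mulVec.2 h1 

/-- The linear parts. -/
noncomputable def afLin (h : AffSet 𝒢) :
    letI := afGroup h
    {p // p ∈ 𝒢} →* CE k :=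
  letI := afGroup h
  { toFun := fun p => mL p.1.1
    map_one' := by
      ext v i
      show ((1 : Matrix (Fin k) (Fin k) ℂ) *ᵥ v) i = v i
      rw [Matrix.one_mulVec]
    map_mul' := by
      rintro ⟨p, hp⟩ ⟨q, hq⟩
      ext v i
      show ((p.1 * q.1) *ᵥ v) i = (p.1 *ᵥ (q.1 *ᵥ v)) i
      rw [Matrix.mulVec_mulVec] }

theorem fin_lin (h : AffSet 𝒢) : {M | ∃ v, (M, v) ∈ 𝒢}.Finite := by
  letI := afGroup h
  have hA : AffN (afLin h) (fun p => p.1.2) := by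
    refine ⟨fun p q => rfl, ?_, ?_, ?_⟩
    · obtain ⟨C, hC⟩ := h.bdd
      refine ⟨max C 0, fun p => ContinuousLinearMap.opNorm_le_bound _ (le_max_right _ _) fun v => ?_⟩
      exact (hC p.1 p.2 v).trans (mul_le_mul_of_nonneg_right (le_max_left _ _) (norm_nonneg _))
    · intro R
      refine ((h.proper R).preimage (f := fun p : {p // p ∈ 𝒢} => p.1)
        Subtype.coe_injective.injOn).subset ?_
      intro p hp
      exact ⟨p.2, hp⟩
    · obtain ⟨r, hr⟩ := h.coc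
      refine ⟨r, fun w => ?_⟩
      obtain ⟨p, hp, hpr⟩ := hr w
      exact ⟨⟨p, hp⟩, hpr⟩
  have hfin := (Pool.Agent.Helper60.LinK.BIEB (Pool.Agent.Helper56.LinK.t_BQ Pool.Agent.Helper32.LinK.ZASP.t_ZAS
    Pool.Agent.Helper62.LinK.fixn)) hA
  refine (hfin.preimage mL_inj.injOn).subset ?_
  rintro M ⟨v, hv⟩
  exact ⟨⟨(M, v), hv⟩, rfl⟩

theorem near_tr (h : AffSet 𝒢) : ∃ R : ℝ, ∀ w : Cn k, ∃ v, ((1 : Matrix (Fin k) (Fin k) ℂ), v) ∈ 𝒢 ∧
    ‖w + v‖ ≤ R := by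
  obtain ⟨r, hr⟩ := h.coc
  obtain ⟨C, hC⟩ := h.bdd
  have hex : ∀ M : Matrix (Fin k) (Fin k) ℂ, ∃ q : Matrix (Fin k) (Fin k) ℂ × Cn k,
      (∃ v, (M, v) ∈ 𝒢) → q ∈ 𝒢 ∧ q.1 * M = 1 := by
    intro M
    by_cases hM : ∃ v, (M, v) ∈ 𝒢
    · obtain ⟨v, hv⟩ := hM
      obtain ⟨q, hq, hq1, -⟩ := h.inv _ hv
      exact ⟨q, fun _ => ⟨hq, hq1⟩⟩
    · exact ⟨(1, 0), fun h => absurd h hM⟩
  choose q hq using hex
  obtain ⟨B, hB⟩ := ((fin_lin h).image fun M => ‖(q M).2‖).bddAbove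
  refine ⟨max C 0 * r + B, fun w => ?_⟩
  obtain ⟨p, hp, hpr⟩ := hr w
  have hM : ∃ v, (p.1, v) ∈ 𝒢 := ⟨p.2, hp⟩
  obtain ⟨h1, h2⟩ := hq p.1 hM
  have h3 := h.mul _ h1 _ hp
  rw [h2] at h3
  refine ⟨_, h3, ?_⟩
  have h4 : w + ((q p.1).1 *ᵥ p.2 + (q p.1).2) = (q p.1).1 *ᵥ (p.1 *ᵥ w + p.2) + (q p.1).2 := by
    rw [Matrix.mulVec_add, Matrix.mulVec_mulVec, h2, Matrix.one_mulVec, add_assoc]
  rw [h4]
  refine (norm_add_le _ _).trans (add_le_add ?_ (hB ⟨p.1, hM, rfl⟩))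
  refine (hC _ h1 _).trans ?_
  exact (mul_le_mul_of_nonneg_right (le_max_left _ _) (norm_nonneg _)).trans
    (mul_le_mul_of_nonneg_left hpr (le_max_right _ _))

end grp

/-- Bieberbach's theorem. -/
theorem afb : S_AFB := by
  intro k 𝒢 h
  refine ⟨fin_lin h, ?_⟩
  have hdim : Module.finrank ℝ (Cn k) = 2 * k := by
    rw [finrank_real_of_complex, Module.finrank_fin_fun]
  obtain ⟨R, hR⟩ := near_tr h
  have hspan : Submodule.span ℝ {v | ((1 : Matrix (Fin k) (Fin k) ℂ), v) ∈ 𝒢} = ⊤ := by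
    refine Pool.Agent.Helper25.LinK.eq_top_of_near _ R fun w => ?_
    obtain ⟨v, hv, hvR⟩ := hR w
    exact ⟨v, Submodule.subset_span hv, hvR⟩
  have key := Submodule.exists_fun_fin_finrank_span_eq ℝ {v | ((1 : Matrix (Fin k) (Fin k) ℂ), v) ∈ 𝒢}
  rw [hspan, finrank_top, hdim] at key
  obtain ⟨f, hf, -, hfl⟩ := key
  exact ⟨f, hf, hfl⟩

end Pool.Agent.Helper10.RK.AFBp
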