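import Pool.Agent.Helper10.SP.Asm
import Pool.Agent.Helper68.Lin.CAU
import Pool.Agent.Helper29.LinK.UNIP
import Pool.Agent.Helper15.RK.AsmF
import Pool.Agent.Helper10.RK.AFB
import Pool.Agent.Helper10.RK.Main
import Pool.Agent.Helper10.RK.SONEK
import Pool.Agent.Helper11.RK.ADDQK
import Pool.Agent.Helper11.RK.BZERO
import Pool.Agent.Helper11.RK.FGMK
import Pool.Agent.Helper14.RK.NCVK
import Pool.Agent.Helper14.RK.NETK
import Pool.Agent.Helper14.RK.NMLK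
import Pool.Agent.Helper16.RK.CMPQK
import Pool.Agent.Helper16.RK.EXTSK
import Pool.Agent.Helper16.RK.STRB
import Pool.Agent.Helper16.RK.SUBL
import Pool.Agent.Helper16.SP.LNRM
import Pool.Agent.Helper2.RK.BSUMK
import Pool.Agent.Helper2.RK.CLR
import Pool.Agent.Helper2.RK.INTBK
import Pool.Agent.Helper2.RK.NATD
import Pool.Agent.Helper24.RK.VARG
import Pool.Agent.Helper25.RK.HFA2
import Pool.Agent.Helper26.RK.FINSPK
import Pool.Agent.Helper27.RK.NILTK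
import Pool.Agent.Helper27.SP.SURJ
import Pool.Agent.Helper29.RK.NATE
import Pool.Agent.Helper29.RK.SMQ
import Pool.Agent.Helper32.RK.PFAFF
import Pool.Agent.Helper35.RK.BPK
import Pool.Agent.Helper35.RK.ETAK
import Pool.Agent.Helper35.RK.GFINK
import Pool.Agent.Helper35.RK.HFA1
import Pool.Agent.Helper35.RK.PAXK
import Pool.Agent.Helper35.RK.PMB
import Pool.Agent.Helper35.RK.SMG
import Pool.Agent.Helper36.RK.AsmG
import Pool.Agent.Helper36.RK.AsmI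
import Pool.Agent.Helper36.RK.HYERK
import Pool.Agent.Helper4.RK.KETG
import Pool.Agent.Helper40.RK.LAMS
import Pool.Agent.Helper40.RK.LAMXK
import Pool.Agent.Helper45.SP.AssemblyFG
import Pool.Agent.Helper49.RK.COMMK
import Pool.Agent.Helper52.RK.AFFC
import Pool.Agent.Helper52.RK.AFFTK
import Pool.Agent.Helper52.RK.SPECK
import Pool.Agent.Helper55.RK.PARBK
import Pool.Agent.Helper56.RK.BACKK
import Pool.Agent.Helper56.RK.CONJK
import Pool.Agent.Helper56.RK.POSB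
import Pool.Agent.Helper58.RK.DETCK
import Pool.Agent.Helper58.RK.DIVB
import Pool.Agent.Helper58.RK.FDIV
import Pool.Agent.Helper58.RK.FIBGK
import Pool.Agent.Helper61.RK.ACBK
import Pool.Agent.Helper61.RK.FLOW
import Pool.Agent.Helper61.RK.LIOUK
import Pool.Agent.Helper65.RK.FIBTK
import Pool.Agent.Helper69.RK.ADNK
import Pool.Agent.Helper70.RK.EXT5K
import Pool.Agent.Helper70.RK.LCENTK
import Pool.Agent.Helper75.RK.CLG
import Pool.Agent.Helper75.RK.STK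
import Pool.Agent.Helper77.RK.NATA
import Pool.Agent.Helper8.RK.A1K
import Pool.Agent.Helper8.RK.FIXG
import Pool.Agent.Helper8.RK.MZK10
import Pool.Agent.Helper8.RK.SECWK
import Pool.Agent.Helper80.RK.FIN1K
import Pool.Agent.Helper80.RK.HODCK
import Pool.Agent.Helper80.RK.LMAPK
import Pool.Agent.Helper80.RK.LOCPK
import Pool.Agent.Helper80.RK.LOCZK
import Pool.Agent.Helper80.RK.SECTK
import Pool.Agent.Helper85.RK.UESTK
import Pool.Agent.Helper89.RK.FINF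
import Pool.Agent.Helper89.RK.PEXK
import Pool.Agent.Helper90.RK.AFOLK
import Pool.Agent.Helper90.RK.CNJK
import Pool.Agent.Helper90.RK.LTRK
import Pool.Agent.Helper90.RK.PGK
import Pool.Agent.Helper90.RK.ROOTK
import Pool.Agent.Helper90.RK.TRSK
import Pool.Agent.Helper93.RK.ANGK
import Pool.Agent.Helper93.RK.RESCK
import Pool.Agent.Helper93.RK.RETNK
import Pool.Agent.Helper94.RK.COVB
import Pool.Agent.Helper95.RK.GEOK
import Pool.Agent.Helper97.RK.FCONK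
import Pool.Agent.Helper99.RK.NATC
import Pool.Agent.Helper99.RK.XLIMK

/-! Assembly of project RK: every packet proposition, in topological order. -/

set_option linter.style.longLine false

namespace Pool.Agent.Helper10.RK.Asm

theorem tB_PARBK : Pool.Agent.Helper95.RK.S_PARBK :=
  _root_.Pool.Agent.Helper55.RK.parbk
theorem tB_PMB : Pool.Agent.Helper95.RK.S_PMB :=
  _root_.Pool.Agent.Helper35.RK.pmb
theorem tB_KETG : Pool.Agent.Helper95.RK.S_KETG :=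
  _root_.Pool.Agent.Helper4.RK.ketg tB_PARBK tB_PMB
theorem tB_FINF : Pool.Agent.Helper95.RK.S_FINF :=
  _root_.Pool.Agent.Helper89.RK.finf tB_PARBK
theorem tB_SMQ : Pool.Agent.Helper95.RK.S_SMQ :=
  _root_.Pool.Agent.Helper29.RK.smq _root_.Pool.Agent.Helper10.SP.Asm.t_WIRT _root_.Pool.Agent.Helper10.SP.Asm.t_LMF
theorem tB_STRB : Pool.Agent.Helper95.RK.S_STRB :=
  _root_.Pool.Agent.Helper16.RK.strb _root_.Pool.Agent.Helper10.SP.Asm.t_WIRT tB_SMQ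
theorem tB_COVB : Pool.Agent.Helper95.RK.S_COVB :=
  _root_.Pool.Agent.Helper94.RK.covb _root_.Pool.Agent.Helper10.SP.Asm.t_WIRT tB_SMQ
theorem tB_DIVB : Pool.Agent.Helper95.RK.S_DIVB :=
  _root_.Pool.Agent.Helper58.RK.divb _root_.Pool.Agent.Helper10.SP.Asm.t_WIRT tB_SMQ tB_STRB tB_COVB
theorem tB_POSB : Pool.Agent.Helper95.RK.S_POSB :=
  _root_.Pool.Agent.Helper56.RK.posb tB_SMQ
theorem tB_NATA : Pool.Agent.Helper95.RK.S_NATA :=
  _root_.Pool.Agent.Helper77.RK.nata _root_.Pool.Agent.Helper10.SP.Asm.t_WIRT _root_.Pool.Agent.Helper10.SP.Asm.t_WCH tB_SMQ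
theorem tB_NATC : Pool.Agent.Helper95.RK.S_NATC :=
  _root_.Pool.Agent.Helper99.RK.natc tB_SMQ tB_NATA
theorem tB_NATD : Pool.Agent.Helper95.RK.S_NATD :=
  _root_.Pool.Agent.Helper2.RK.natd tB_SMQ tB_NATA
theorem tB_NATE : Pool.Agent.Helper95.RK.S_NATE :=
  _root_.Pool.Agent.Helper29.RK.nate tB_NATA tB_NATC tB_NATD
theorem tB_BZERO : Pool.Agent.Helper95.RK.S_BZERO :=
  _root_.Pool.Agent.Helper11.RK.bzero tB_PARBK tB_PMB tB_KETG tB_FINF _root_.Pool.Agent.Helper10.SP.Asm.t_PUE _root_.Pool.Agent.Helper10.SP.Asm.t_DIVC tB_DIVB tB_POSB tB_NATC tB_NATE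
theorem tB_FLOW : Pool.Agent.Helper95.RK.S_FLOW :=
  _root_.Pool.Agent.Helper61.RK.flow
theorem tB_PFAFF : Pool.Agent.Helper95.RK.S_PFAFF :=
  _root_.Pool.Agent.Helper32.RK.pfaff tB_FLOW
theorem tB_AFFC : Pool.Agent.Helper95.RK.S_AFFC :=
  _root_.Pool.Agent.Helper52.RK.affc _root_.Pool.Agent.Helper10.SP.Asm.t_WIRT tB_PFAFF
theorem tB_SPECK : Pool.Agent.Helper95.RK.S_SPECK :=
  _root_.Pool.Agent.Helper52.RK.speck _root_.Pool.Agent.Helper10.SP.Asm.t_WIRT _root_.Pool.Agent.Helper10.SP.Asm.t_WCH tB_PARBK tB_PMB tB_BZERO tB_AFFC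
theorem tB_FINSPK : Pool.Agent.Helper95.RK.S_FINSPK :=
  _root_.Pool.Agent.Helper26.RK.finspk tB_SPECK tB_PARBK tB_PMB _root_.Pool.Agent.Helper10.SP.Asm.t_WCH
theorem tB_AFFTK : Pool.Agent.Helper95.RK.S_AFFTK :=
  _root_.Pool.Agent.Helper52.RK.afftk _root_.Pool.Agent.Helper10.SP.Asm.t_WCH
theorem tB_TRSK : Pool.Agent.Helper95.RK.S_TRSK :=
  _root_.Pool.Agent.Helper90.RK.trsk tB_PARBK tB_PMB tB_AFFTK
theorem tB_ACBK : Pool.Agent.Helper95.RK.S_ACBK :=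
  _root_.Pool.Agent.Helper61.RK.acbk _root_.Pool.Agent.Helper10.SP.Asm.t_WCH _root_.Pool.Agent.Helper10.SP.Asm.t_LMF
theorem tB_EXTSK : Pool.Agent.Helper95.RK.S_EXTSK :=
  _root_.Pool.Agent.Helper16.RK.extsk tB_PARBK tB_PMB _root_.Pool.Agent.Helper10.SP.Asm.t_IDM tB_TRSK tB_ACBK
theorem tB_LMAPK : Pool.Agent.Helper95.RK.S_LMAPK :=
  _root_.Pool.Agent.Helper80.RK.lmapk tB_FINSPK tB_EXTSK tB_PARBK tB_PMB
theorem tB_LOCPK : Pool.Agent.Helper95.RK.S_LOCPK :=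
  _root_.Pool.Agent.Helper80.RK.locpk tB_PARBK _root_.Pool.Agent.Helper10.SP.Asm.t_IDM tB_TRSK
theorem tB_PAXK : Pool.Agent.Helper95.RK.S_PAXK :=
  _root_.Pool.Agent.Helper35.RK.paxk tB_PARBK tB_PMB
theorem tB_LIPPK : Pool.Agent.Helper95.RK.S_LIPPK :=
  _root_.Pool.Agent.Helper61.RK.lippk tB_ACBK
theorem tB_BPK : Pool.Agent.Helper95.RK.S_BPK :=
  _root_.Pool.Agent.Helper35.RK.bpk tB_PARBK tB_LOCPK
theorem tB_EXT5K : Pool.Agent.Helper95.RK.S_EXT5K :=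
  _root_.Pool.Agent.Helper70.RK.ext5k tB_LOCPK tB_PAXK tB_LIPPK tB_BPK
theorem tB_RESCK : Pool.Agent.Helper95.RK.S_RESCK :=
  _root_.Pool.Agent.Helper93.RK.resck tB_PARBK tB_PMB _root_.Pool.Agent.Helper10.SP.Asm.t_WCH
theorem tB_FIN1K : Pool.Agent.Helper95.RK.S_FIN1K :=
  _root_.Pool.Agent.Helper80.RK.fin1k tB_PARBK tB_PAXK
theorem tB_AFOLK : Pool.Agent.Helper95.RK.S_AFOLK :=
  _root_.Pool.Agent.Helper90.RK.afolk tB_LOCPK tB_PAXK tB_FIN1K tB_KETG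
theorem tB_GEOK : Pool.Agent.Helper95.RK.S_GEOK :=
  _root_.Pool.Agent.Helper95.RK.geoK tB_LMAPK tB_EXT5K tB_RESCK tB_AFOLK
theorem tP_SMG : Pool.Agent.Helper36.RK.S_SMG :=
  _root_.Pool.Agent.Helper35.RK.smg
theorem tP_CLR : Pool.Agent.Helper36.RK.S_CLR :=
  _root_.Pool.Agent.Helper2.RK.clr
theorem tP_CLG : Pool.Agent.Helper36.RK.S_CLG :=
  _root_.Pool.Agent.Helper75.RK.clg tP_CLR
theorem tP_BDG : Pool.Agent.Helper36.RK.S_BDG :=
  _root_.Pool.Agent.Helper36.RK.g_bdg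
theorem tP_SUBL : Pool.Agent.Helper36.RK.S_SUBL :=
  _root_.Pool.Agent.Helper16.RK.subl tP_BDG
theorem tP_STK : Pool.Agent.Helper36.RK.S_STK :=
  _root_.Pool.Agent.Helper75.RK.stk
theorem tP_VARG : Pool.Agent.Helper36.RK.S_VARG :=
  _root_.Pool.Agent.Helper24.RK.varg tP_SMG tP_CLG tP_SUBL tP_STK
theorem txHelper40RK_NCVK : Pool.Agent.Helper40.RK.S_NCVK :=
  _root_.Pool.Agent.Helper14.RK.ncvk
theorem txHelper40RK_NETK : Pool.Agent.Helper40.RK.S_NETK :=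
  _root_.Pool.Agent.Helper14.RK.netk
theorem txHelper40RK_RETNK : Pool.Agent.Helper40.RK.S_RETNK :=
  _root_.Pool.Agent.Helper93.RK.retnk txHelper40RK_NCVK txHelper40RK_NETK
theorem txHelper40RK_NMLK : Pool.Agent.Helper40.RK.S_NMLK :=
  _root_.Pool.Agent.Helper14.RK.nmlk txHelper40RK_NCVK
theorem txHelper40RK_CMPQK : Pool.Agent.Helper40.RK.S_CMPQK :=
  _root_.Pool.Agent.Helper16.RK.cmpqk txHelper40RK_NMLK
theorem txHelper40RK_ADDQK : Pool.Agent.Helper40.RK.S_ADDQK :=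
  _root_.Pool.Agent.Helper11.RK.addqk txHelper40RK_NMLK txHelper40RK_CMPQK
theorem txHelper40RK_HYERK : Pool.Agent.Helper40.RK.S_HYERK :=
  _root_.Pool.Agent.Helper36.RK.hyerk
theorem txHelper40RK_LAMXK : Pool.Agent.Helper40.RK.S_LAMXK :=
  _root_.Pool.Agent.Helper40.RK.lamxk txHelper40RK_RETNK txHelper40RK_CMPQK txHelper40RK_ADDQK txHelper40RK_HYERK
theorem txHelper40RK_CNJK : Pool.Agent.Helper40.RK.S_CNJK :=
  _root_.Pool.Agent.Helper90.RK.cnjk txHelper40RK_NCVK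
theorem txHelper40RK_LTRK : Pool.Agent.Helper40.RK.S_LTRK :=
  _root_.Pool.Agent.Helper90.RK.ltrk txHelper40RK_RETNK txHelper40RK_CNJK
theorem tP_LAMS : Pool.Agent.Helper36.RK.S_LAMS :=
  _root_.Pool.Agent.Helper40.RK.lams txHelper40RK_RETNK txHelper40RK_LAMXK txHelper40RK_LTRK
theorem tP_PERG : Pool.Agent.Helper36.RK.S_PERG :=
  _root_.Pool.Agent.Helper36.RK.g_perg tP_VARG tP_LAMS
theorem tJ_HFA1 : Pool.Agent.Helper45.RK.S_HFA1 :=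
  _root_.Pool.Agent.Helper35.RK.hfa1
theorem tJ_HFA2 : Pool.Agent.Helper45.RK.S_HFA2 :=
  _root_.Pool.Agent.Helper25.RK.hfa2 tJ_HFA1
theorem tJ_PGK : Pool.Agent.Helper45.RK.S_PGK :=
  _root_.Pool.Agent.Helper90.RK.pgk tJ_HFA2
theorem tJ_CONJK : Pool.Agent.Helper45.RK.S_CONJK :=
  _root_.Pool.Agent.Helper56.RK.conjk
theorem tsL_LEXT : Pool.Agent.Helper45.SP.S_LEXT :=
  _root_.Pool.Agent.Helper45.SP.t_LEXT
theorem tsL_LADDp : Pool.Agent.Helper45.SP.S_LADD' :=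
  _root_.Pool.Agent.Helper45.SP.t_LADD
theorem tsL_LFIN : Pool.Agent.Helper45.SP.S_LFIN :=
  _root_.Pool.Agent.Helper45.SP.t_LFIN
theorem tsL_LLALG : Pool.Agent.Helper45.SP.S_LLALG :=
  _root_.Pool.Agent.Helper45.SP.t_LLALG
theorem tsL_LNRM : Pool.Agent.Helper45.SP.S_LNRM :=
  _root_.Pool.Agent.Helper16.SP.LNRM
theorem tsL_LNCMP : Pool.Agent.Helper45.SP.S_LNCMP :=
  _root_.Pool.Agent.Helper45.SP.t_LNCMP
theorem tsL_LAD : Pool.Agent.Helper45.SP.S_LAD :=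
  _root_.Pool.Agent.Helper45.SP.t_LAD
theorem tsL_LADAPX : Pool.Agent.Helper45.SP.S_LADAPX :=
  _root_.Pool.Agent.Helper45.SP.t_LADAPX
theorem tsL_LCMPp : Pool.Agent.Helper45.SP.S_LCMP' :=
  _root_.Pool.Agent.Helper45.SP.t_LCMP
theorem tsL_SURJ : Pool.Agent.Helper45.SP.S_SURJ :=
  _root_.Pool.Agent.Helper27.SP.SURJ
theorem tJ_COMMK : Pool.Agent.Helper45.RK.S_COMMK :=
  _root_.Pool.Agent.Helper49.RK.commk _root_.Pool.Agent.Helper10.SP.Asm.t_LLCONV tsL_LCMPp tsL_SURJ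
theorem tsL_STEP : Pool.Agent.Helper45.SP.S_STEP :=
  _root_.Pool.Agent.Helper45.SP.t_STEP
theorem tsL_SEQ : Pool.Agent.Helper45.SP.S_SEQ :=
  _root_.Pool.Agent.Helper45.SP.t_SEQ
theorem tsL_LAPPR : Pool.Agent.Helper45.SP.S_LAPPR :=
  _root_.Pool.Agent.Helper45.SP.t_LAPPR
theorem tJ_PEXK : Pool.Agent.Helper45.RK.S_PEXK :=
  _root_.Pool.Agent.Helper89.RK.pexk _root_.Pool.Agent.Helper10.SP.Asm.t_LLCONV
theorem tJ_ANGK : Pool.Agent.Helper45.RK.S_ANGK :=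
  _root_.Pool.Agent.Helper93.RK.angk tJ_PEXK _root_.Pool.Agent.Helper68.Lin.CAU
theorem tJ_NILTK : Pool.Agent.Helper45.RK.S_NILTK :=
  _root_.Pool.Agent.Helper27.RK.niltk tsL_LNRM tJ_COMMK tsL_STEP tsL_SEQ tsL_LAPPR tJ_ANGK
theorem tsL_NILLIM : Pool.Agent.Helper45.SP.S_NILLIM :=
  _root_.Pool.Agent.Helper45.SP.t_NILLIM
theorem tJ_ADNK : Pool.Agent.Helper45.RK.S_ADNK :=
  _root_.Pool.Agent.Helper69.RK.adnk tsL_LNRM tsL_LNCMP tsL_LAD tsL_LADAPX tJ_NILTK tJ_ANGK tsL_NILLIM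
theorem tJ_LCENTK : Pool.Agent.Helper45.RK.S_LCENTK :=
  _root_.Pool.Agent.Helper70.RK.lcentk tsL_LLALG tJ_ADNK
theorem tsL_ZTRANS : Pool.Agent.Helper45.SP.S_ZTRANS :=
  _root_.Pool.Agent.Helper45.SP.t_ZTRANS
theorem tJ_FGMK : Pool.Agent.Helper45.RK.S_FGMK :=
  _root_.Pool.Agent.Helper11.RK.fgmk tJ_PGK tJ_CONJK tsL_LEXT tsL_LADDp tsL_LFIN tJ_LCENTK tsL_ZTRANS
theorem tB_FGK : Pool.Agent.Helper95.RK.S_FGK := tJ_FGMK
theorem tH_LIOUK : Pool.Agent.Helper10.RK.S_LIOUK :=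
  _root_.Pool.Agent.Helper61.RK.liouk _root_.Pool.Agent.Helper10.SP.Asm.t_LIOU _root_.Pool.Agent.Helper10.SP.Asm.t_WCH
theorem tH_HODCK : Pool.Agent.Helper10.RK.S_HODCK :=
  _root_.Pool.Agent.Helper80.RK.hodck _root_.Pool.Agent.Helper10.SP.Asm.t_WCH _root_.Pool.Agent.Helper10.SP.Asm.t_LFIN _root_.Pool.Agent.Helper10.SP.Asm.t_ASI _root_.Pool.Agent.Helper10.SP.Asm.t_PUE _root_.Pool.Agent.Helper10.SP.Asm.t_HODG tH_LIOUK
theorem tP_DETCK : Pool.Agent.Helper36.RK.S_DETCK :=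
  _root_.Pool.Agent.Helper58.RK.detck tH_HODCK
theorem tH_FDIV : Pool.Agent.Helper10.RK.S_FDIV :=
  _root_.Pool.Agent.Helper58.RK.fdiv _root_.Pool.Agent.Helper10.SP.Asm.t_WIRT
theorem tP_INTBK : Pool.Agent.Helper36.RK.S_INTBK :=
  _root_.Pool.Agent.Helper2.RK.intbk _root_.Pool.Agent.Helper10.SP.Asm.t_ARRB _root_.Pool.Agent.Helper10.SP.Asm.t_PUE _root_.Pool.Agent.Helper10.SP.Asm.t_DIVC _root_.Pool.Agent.Helper10.SP.Asm.t_PIO tH_FDIV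
theorem tP_DISFK : Pool.Agent.Helper36.RK.S_DISFK :=
  _root_.Pool.Agent.Helper36.RK.a_disfk tB_FGK tP_DETCK tP_INTBK
theorem tJ_GFINK : Pool.Agent.Helper45.RK.S_GFINK :=
  _root_.Pool.Agent.Helper35.RK.gfink _root_.Pool.Agent.Helper10.SP.Asm.t_LLCONV tJ_PGK
theorem tH_GFINK : Pool.Agent.Helper10.RK.S_GFINK := by
  intro b k N c R P Φ Hf C hA hD
  obtain ⟨n, s, h⟩ := tJ_GFINK c R P Φ Hf C hA hD
  exact ⟨n, s, h.big, h.cov, h.dist⟩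
theorem tJ_FIXG : Pool.Agent.Helper45.RK.S_FIXG :=
  _root_.Pool.Agent.Helper8.RK.fixg
theorem tJ_FIBGK : Pool.Agent.Helper45.RK.S_FIBGK :=
  _root_.Pool.Agent.Helper58.RK.fibgk tJ_GFINK tJ_FIXG
theorem tJ_AFB : Pool.Agent.Helper45.RK.S_AFB :=
  _root_.Pool.Agent.Helper10.RK.AFBp.afb
theorem tJ_A1K : Pool.Agent.Helper45.RK.S_A1K :=
  _root_.Pool.Agent.Helper8.RK.a1k _root_.Pool.Agent.Helper29.LinK.t_UNIP
theorem tJ_ROOTK : Pool.Agent.Helper45.RK.S_ROOTK :=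
  _root_.Pool.Agent.Helper90.RK.rootk tJ_FIBGK tJ_AFB tJ_A1K tJ_FIXG
theorem tH_ROOTK : Pool.Agent.Helper10.RK.S_ROOTK := by
  intro b k N c R P Φ Hf C hA hD
  obtain ⟨m, hm, h⟩ := tJ_ROOTK c R P Φ Hf C hA hD
  refine ⟨m, hm, fun i t ht hg z hz => ?_⟩
  rw [← Matrix.det_pow, h i t ⟨ht.1, hg⟩ z hz, Matrix.det_one]
theorem tH_MZK : Pool.Agent.Helper10.RK.S_MZK :=
  _root_.Pool.Agent.Helper8.RK.TenK.mzk tH_GFINK tH_ROOTK
theorem tH_BSUMK : Pool.Agent.Helper10.RK.S_BSUMK :=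
  _root_.Pool.Agent.Helper2.RK.bsumk
theorem tH_SECWK : Pool.Agent.Helper10.RK.S_SECWK :=
  _root_.Pool.Agent.Helper8.RK.secwk _root_.Pool.Agent.Helper10.SP.Asm.t_ARRB _root_.Pool.Agent.Helper10.SP.Asm.t_WCH
theorem tH_LOCZK : Pool.Agent.Helper10.RK.S_LOCZK :=
  _root_.Pool.Agent.Helper80.RK.loczk
theorem tH_SONEK : Pool.Agent.Helper10.RK.S_SONEK :=
  _root_.Pool.Agent.Helper10.RK.SONEp.sonek tH_BSUMK
theorem tH_ETAK : Pool.Agent.Helper10.RK.S_ETAK :=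
  _root_.Pool.Agent.Helper35.RK.etak _root_.Pool.Agent.Helper10.SP.Asm.t_LMF tH_BSUMK
theorem tH_UESTK : Pool.Agent.Helper10.RK.S_UESTK :=
  _root_.Pool.Agent.Helper85.RK.uestk _root_.Pool.Agent.Helper10.SP.Asm.t_WIRT _root_.Pool.Agent.Helper10.SP.Asm.t_LMF _root_.Pool.Agent.Helper10.SP.Asm.t_DETI _root_.Pool.Agent.Helper10.SP.Asm.t_BOX _root_.Pool.Agent.Helper10.SP.Asm.t_PROJ _root_.Pool.Agent.Helper10.SP.Asm.t_BOCH
theorem tH_XLIMK : Pool.Agent.Helper10.RK.S_XLIMK :=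
  _root_.Pool.Agent.Helper99.RK.xlimk tH_GFINK tH_MZK tH_BSUMK tH_SECWK tH_LOCZK tH_SONEK tH_ETAK tH_UESTK _root_.Pool.Agent.Helper10.SP.Asm.t_PUE2 _root_.Pool.Agent.Helper10.SP.Asm.t_NONI _root_.Pool.Agent.Helper10.SP.Asm.t_LCPT
theorem tJ_FIBTK : Pool.Agent.Helper45.RK.S_FIBTK :=
  _root_.Pool.Agent.Helper65.RK.fibtk tJ_FIBGK tJ_AFB tJ_A1K tJ_FIXG
theorem tH_FIBTK : Pool.Agent.Helper10.RK.S_FIBTK := tJ_FIBTK
theorem tH_FCONK : Pool.Agent.Helper10.RK.S_FCONK :=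
  _root_.Pool.Agent.Helper97.RK.fconk tH_FIBTK
theorem tH_SECTK : Pool.Agent.Helper10.RK.S_SECTK :=
  _root_.Pool.Agent.Helper80.RK.sectk tH_XLIMK tH_FCONK
theorem tH_BACKK : Pool.Agent.Helper10.RK.S_BACKK :=
  _root_.Pool.Agent.Helper56.RK.backk
theorem tH_MAINRK : Pool.Agent.Helper10.RK.S_MAINRK :=
  _root_.Pool.Agent.Helper10.RK.mainrk tB_GEOK tP_PERG tP_DISFK tH_SECTK tH_BACKK
theorem t_FRONT : Pool.Agent.Helper15.RK.S_FRONT := Pool.Agent.Helper15.RK.Asm.t_FRONT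

end Pool.Agent.Helper10.RK.Asm
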