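import Pool.Agent.Helper36.RK.GoalsI
import Pool.Agent.Helper10.SP.GoalsI

/-!
# RK, section H': flat line bundles and basic integration for fibres `ℂᵏ`

Analogues for `FEtK` of LIOU, HODC, DETC, INTB of `Helper10/SP/GoalsI.lean`. The analysis of
`Helper10/SP/GoalsT.lean` is stated for all étale relations on open sets of `ℂⁿ` and is used unchanged
with `T = tubeK k (Bd c 2)`. The statements `S_DETCK` and `S_INTBK` are in `Helper36/RK/GoalsI.lean`:

DETCK. USES: HODCK (and Lin `S_MONTEL`, `S_IDT`). PROOF. As SP DETC (`Helper74/SP/DETC.lean`: copy it): the real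
matrix of the germ on the family only depends on `t.g`; `pot` now reads `Φ z = Φ (t.g z) + log |det Dt.g|² +
log |det A|²`, and `|det A z| ≤ C'` by `abd` (`MB (t.A z) C`, so the entries are bounded by `C`; `MB (t.A z)⁻¹ C` for the
lower bound).

INTBK. Integration over the base. USES: WIRT, WCH, ARRB, PUE, DETI, DIVC, PIO (all of SP), FDIV.
PROOF. As SP INTB (`Helper93/SP/INTB.lean`). `T = tubeK k (Bd c 2)`, `F := fbl (H x)`,
`Y' x := ptK (fun j => μ det F Y^j) (fun i => - μ det F ∑ j l Y^j H j l (F⁻¹) l i)` (the function of `FDIV` with `X = μ Y`). For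
an arrow `τ = t.map` (`toP`): `Dτ` maps `∂/∂w_p` to `∑ i A i p ∂/∂w_i`, so `F x = Aᵀ (F (τ x)) conj(A)`, `det F x =
|det A|² det F (τ x)`; the horizontal lift `Y^j e_j - (∑ Y^j H j l (F⁻¹) l i) e_i` is the vector over `Y (z)` which is
`H`-orthogonal to the fibre directions, so it is mapped to the horizontal lift of `Dg (Y z) = Y (g z)` at `τ x`; with
`μ z = μ (g z) |det Dg|²`, `det Dτ = det A det Dg`: the hypothesis of `DIVC` holds. `FDIV`: `∑ cd_k Y'^k = det F ∑ j cd_j (μ Y^j)`.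
So `∫ κ det F μ f = 0`, `f := μ⁻¹ ∑ cd_j (μ Y^j)` at the base point; `det F > 0`. The rest is as in SP INTB.
-/

open Complex Metric Set Filter Topology MeasureTheory
open scoped ContDiff ComplexConjugate ComplexOrder Manifold Matrix

namespace Pool.Agent.Helper10.RK

open Pool.Agent.Helper95.Lin Pool.Agent.Helper16.Abund Pool.Agent.Helper92.Orb
open Pool.Agent.Helper10.SP Pool.Agent.Helper95.RK Pool.Agent.Helper36.RK

universe u v

/-- LIOUK. Bounded pluriharmonic functions on `D × ℂᵏ` do not depend on the fibre variable. USES: SP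
LIOU (proved: `Pool.Agent.Helper40.SP.liou`), SP WCH.
PROOF. Let `z ∈ D`, `w, w' : Cn k`. The map `σ : Cn (b + 1) → Cn (b + k)`, `σ x = ptK (base x) (w + lc x • (w' - w))`, is
holomorphic (affine) and maps `tubeS D` to `tubeK k D`. `u ∘ σ` is smooth and bounded on `tubeS D`, and its Levi form
vanishes (`WCH`: `lev (u ∘ σ) x e = lev u (σ x) (Dσ e)`). `S_LIOU` for `u ∘ σ`: `u (σ (pt z 0)) = u (σ (pt z 1))`. -/
def S_LIOUK : Prop := ∀ {b k : ℕ} (D : Set (Cn b)), IsOpen D → ∀ u : Cn (b + k) → ℝ,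
  ContDiffOn ℝ ∞ u (tubeK k D) → (∀ x ∈ tubeK k D, ∀ e, lev u x e = 0) →
  (∃ B : ℝ, ∀ x ∈ tubeK k D, |u x| ≤ B) → ∀ z ∈ D, ∀ w w' : Cn k, u (ptK z w) = u (ptK z w')

/-- HODCK. Bounded cocycles are coboundaries of basic pluriharmonic functions. USES: SP ARRB, LFIN, ASI,
PUE, HODG, LIOUK. PROOF. As SP HODC (`Helper19/SP/HODC.lean`: copy it), with `T = tubeK k (Bd c 2)`: nothing else
changes (`u z := u₁ (ptK z 0)`). -/
def S_HODCK : Prop := ∀ {b k N : ℕ} {G : Type u} [Group G] (c : Fin N → Cn b) (R : ℝ)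
  (Rel : G → Cn (b + k) → Cn (b + k) → Prop) (P : Set (Cn b) → TriK b k → Prop) (Φ : Cn b → ℝ)
  (Hf : Cn b → Matrix (Fin k) (Fin k) ℂ) (C : ℝ)
  (H : Cn (b + k) → Matrix (Fin (b + k)) (Fin (b + k)) ℂ), FEtK c R Rel P Φ Hf C H →
  ∀ cc, Coc Rel cc → ∃ u : Cn b → ℝ, ContDiffOn ℝ ∞ u (Bd c 2) ∧
    (∀ z ∈ Bd c 2, ∀ e, lev u z e = 0) ∧
    ∀ γ x y, Rel γ x y → u (base y) - u (base x) = cc γ x y

/-- FDIV. The fibre block of a Kähler metric: the horizontal lift has the divergence of the base.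
PROOF. Pointwise identity at `x`. Write `F := fbl (H x)` (positive definite, as a principal block), `D := det F`,
`K := F⁻¹`, fibre indices `i, l, p, q`, base indices `j`, `T p i l := cd_p F i l`. (a) `closed`: `T p i l = T i p l` (fibre
indices) and `cd_i (H j l) = cd_j (F i l)` (`j` in the base). (b) `cd_p (D K l i) = D (∑ K q r T p r q) K l i - D ∑ K l r T p r q K q i`
(derivative of the determinant `cd_p D = D ∑_{q r} K q r T p r q` and of the inverse matrix). Sum over `p = i`: both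
terms are equal after `T i r q = T r i q`: `∑ i cd_i (D K l i) = 0`. (See `S_DETI` of `GoalsT` and its proof,
`Helper8/SP/DETI.lean`, for these computations.) (c) So `∑ i cd_i (D ψ_j^i) = ∑ i l cd_i (H j l) D K l i = ∑ i l cd_j (F i l) D K l i =
cd_j D`, where `ψ_j^i = ∑ l H j l K l i`. (d) `μ` and `Y` depend on `base x` only: `cd` of `Y'` in the base directions gives
`∑ j cd_j (D) μ Y^j + D ∑ j cd_j (μ Y^j)`, in the fibre directions `- ∑ j (∑ i cd_i (D ψ_j^i)) μ Y^j`. -/
def S_FDIV : Prop := ∀ {b k : ℕ} (D : Set (Cn b)) (H : Cn (b + k) → Matrix (Fin (b + k)) (Fin (b + k)) ℂ),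
  IsOpen D → (∀ x ∈ tubeK k D, (H x).PosDef) →
  (∀ i j, ContDiffOn ℝ ∞ (fun x => H x i j) (tubeK k D)) →
  (∀ x ∈ tubeK k D, ∀ i j l, cd l (fun y => H y i j) x = cd i (fun y => H y l j) x) →
  ∀ X : Cn b → Cn b, ContDiffOn ℝ ∞ X D →
  ∀ x ∈ tubeK k D,
    ∑ i, cd i (fun y => ptK (fun j => (fbl (H y)).det * X (base y) j) (fun i => -(fbl (H y)).det *
      ∑ j : Fin b, ∑ l : Fin k, X (base y) j * H y (Fin.castAdd k j) (Fin.natAdd b l) *
        (fbl (H y))⁻¹ l i) i) x =
    (fbl (H x)).det * ∑ j, cd j (fun z => X z j) (base x)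

end Pool.Agent.Helper10.RK
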