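import Pool.Agent.Helper10.RK.GoalsH
import Pool.Agent.Helper10.SP.GoalsK

/-!
# RK, sections J', K': the discrete case, construction of sections, for fibres `ℂᵏ`

`S_GFINK`, `S_FIBTK`, `S_ROOTK` (the facts on the discrete case) are proved by helper45's packets (J').
Everything else is the analogue of the packet of the same name (without `K`) of `Helper10/SP/GoalsK.lean`;
the proofs there can be copied, with `Tri b` replaced by `TriK b k`, `Cn (b + 1)` by `Cn (b + k)`, `tubeS` by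
`tubeK k`, `pt z w` by `ptK z w`, `lc` by `fib`, `Jt` by `JtK`.
-/

open Complex Metric Set Filter Topology MeasureTheory
open scoped ContDiff ComplexConjugate ComplexOrder Manifold Matrix

namespace Pool.Agent.Helper10.RK

open Pool.Agent.Helper95.Lin Pool.Agent.Helper16.Abund Pool.Agent.Helper92.Orb
open Pool.Agent.Helper10.SP Pool.Agent.Helper95.RK Pool.Agent.Helper36.RK

universe u v

/-! ## The discrete case -/

/-- The Jacobian determinant of `(z, w) ↦ (g z, A z w + β z)`. -/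
noncomputable def JtK {b k : ℕ} (t : TriK b k) (z : Cn b) : ℂ := (fderiv ℂ t.g z).det * (t.A z).det

/-- `s i l`, `l < n i`, are the different base maps of the `BigK` elements over `ball (c i) 4`. -/
structure GClK {b k N : ℕ} (c : Fin N → Cn b) (P : Set (Cn b) → TriK b k → Prop) (n : Fin N → ℕ)
    (s : ∀ i, Fin (n i) → TriK b k) : Prop where
  big : ∀ i l, BigK c P i (s i l)
  cov : ∀ i t, BigK c P i t → ∃ l, ∀ z ∈ ball (c i) 4, t.g z = (s i l).g z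
  dist : ∀ i l m, (∀ z ∈ ball (c i) 4, (s i l).g z = (s i m).g z) → l = m

/-- GFINK. Finitely many base maps. (helper45, J'.) PROOF. As SP GFIN (`Helper53/SP/GFIN.lean`); only `t.g` and bounds
for `t.A` occur. -/
def S_GFINK : Prop := ∀ {b k N : ℕ} (c : Fin N → Cn b) (R : ℝ) (P : Set (Cn b) → TriK b k → Prop)
  (Φ : Cn b → ℝ) (Hf : Cn b → Matrix (Fin k) (Fin k) ℂ) (C : ℝ), AFolK c R P Φ Hf C →
  DiscK c P → ∃ (n : Fin N → ℕ) (s : ∀ i, Fin (n i) → TriK b k), GClK c P n s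

/-- FIBTK. `2k` independent translations of each fibre. (helper45, J'.) -/
def S_FIBTK : Prop := ∀ {b k N : ℕ} (c : Fin N → Cn b) (R : ℝ) (P : Set (Cn b) → TriK b k → Prop)
  (Φ : Cn b → ℝ) (Hf : Cn b → Matrix (Fin k) (Fin k) ℂ) (C : ℝ), AFolK c R P Φ Hf C →
  DiscK c P → ∀ i, ∀ z ∈ ball (c i) 2, ∃ t : Fin (2 * k) → TriK b k, (∀ j, BigK c P i (t j)) ∧
    (∀ j, ∀ y ∈ ball (c i) 4, (t j).g y = y ∧ (t j).A y = 1) ∧
    LinearIndependent ℝ fun j => (t j).β z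

/-- ROOTK. The determinants of the fibre parts are roots of unity of bounded order. (helper45, J'.) -/
def S_ROOTK : Prop := ∀ {b k N : ℕ} (c : Fin N → Cn b) (R : ℝ) (P : Set (Cn b) → TriK b k → Prop)
  (Φ : Cn b → ℝ) (Hf : Cn b → Matrix (Fin k) (Fin k) ℂ) (C : ℝ), AFolK c R P Φ Hf C →
  DiscK c P → ∃ m₀ : ℕ, 1 ≤ m₀ ∧ ∀ i t, BigK c P i t →
    (∀ z ∈ ball (c i) 4, t.g z = z) → ∀ z ∈ ball (c i) 4, (t.A z).det ^ m₀ = 1

/-- `M`-th powers of the Jacobians depend only on the base map, and are `1` at fixed points. -/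
def JMK {b k N : ℕ} (c : Fin N → Cn b) (P : Set (Cn b) → TriK b k → Prop) (M : ℕ) : Prop :=
  (∀ i t t', BigK c P i t → BigK c P i t' → (∀ z ∈ ball (c i) 4, t.g z = t'.g z) →
    ∀ z ∈ ball (c i) 4, JtK t z ^ M = JtK t' z ^ M) ∧
  ∀ i t, BigK c P i t → ∀ z ∈ ball (c i) 2, t.g z = z → JtK t z ^ M = 1

/-- MZK. USES: GFINK, ROOTK. PROOF. As SP MZ (`Helper8/SP/MZ.lean`: copy it), with `t.a` replaced by `(t.A z).det`
(`det (A A') = det A det A'`). -/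
def S_MZK : Prop := ∀ {b k N : ℕ} (c : Fin N → Cn b) (R : ℝ) (P : Set (Cn b) → TriK b k → Prop)
  (Φ : Cn b → ℝ) (Hf : Cn b → Matrix (Fin k) (Fin k) ℂ) (C : ℝ), AFolK c R P Φ Hf C →
  DiscK c P → ∃ M₀ : ℕ, 1 ≤ M₀ ∧ ∀ l : ℕ, JMK c P (M₀ * l)

/-- Sum over the base maps. -/
noncomputable def bsumK {b k N : ℕ} (c : Fin N → Cn b) (n : Fin N → ℕ)
    (s : ∀ i, Fin (n i) → TriK b k) (M : ℕ) (F : Cn b → ℂ) (z : Cn b) : ℂ :=
  ∑ i, (ball (c i) 2).indicator (fun y => ∑ l, F ((s i l).g y) * JtK (s i l) y ^ M) z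

/-- BSUMK. Automorphic sums over the base. PROOF. As SP BSUM (`Helper75/SP/BSUM.lean`: copy it). -/
def S_BSUMK : Prop := ∀ {b k N : ℕ} (c : Fin N → Cn b) (R : ℝ) (P : Set (Cn b) → TriK b k → Prop)
  (Φ : Cn b → ℝ) (Hf : Cn b → Matrix (Fin k) (Fin k) ℂ) (C : ℝ), AFolK c R P Φ Hf C →
  ∀ (n : Fin N → ℕ) (s : ∀ i, Fin (n i) → TriK b k),
  GClK c P n s → ∀ M : ℕ, JMK c P M → ∀ (F : Cn b → ℂ) (K : Set (Cn b)), ContDiff ℝ ∞ F →
  IsCompact K → K ⊆ Bd c 2 → (∀ z ∉ K, F z = 0) → ContDiffOn ℝ ∞ (bsumK c n s M F) (Bd c 2) ∧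
  ∀ U t, PBK c P U t → ∀ z ∈ U, bsumK c n s M F z = bsumK c n s M F (t.g z) * JtK t z ^ M

/-- SECWK. Sections and weights from the base. USES: SP ARRB, WCH, LMF. PROOF. As SP SECW (`Helper74/SP/SECW.lean`:
copy it): a local arrow `τ` near `x` is `t.map` for the germ `t` of `toP`, its complex Jacobian determinant is
`det Dt.g * det t.A = JtK t (base x)` (block triangular matrix: `Dτ (ptK u v) = ptK (Dg u) (A v + …)`; e.g.
`Matrix.det_fromBlocks_zero₁₂` after reindexing `Fin (b + k) ≃ Fin b ⊕ Fin k`, or `LinearMap.det` of a composition).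
State this determinant formula as a separate lemma, it is useful for others. -/
def S_SECWK : Prop := ∀ {b k N : ℕ} {G : Type u} [Group G] (c : Fin N → Cn b) (R : ℝ)
  (Rel : G → Cn (b + k) → Cn (b + k) → Prop) (P : Set (Cn b) → TriK b k → Prop) (Φ : Cn b → ℝ)
  (Hf : Cn b → Matrix (Fin k) (Fin k) ℂ) (C : ℝ)
  (H : Cn (b + k) → Matrix (Fin (b + k)) (Fin (b + k)) ℂ), FEtK c R Rel P Φ Hf C H →
  (∀ (M : ℕ) (f : Cn b → ℂ), ContDiffOn ℝ ∞ f (Bd c 2) →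
    (∀ U t, PBK c P U t → ∀ z ∈ U, f z = f (t.g z) * JtK t z ^ M) →
    Sec (tubeK k (Bd c 2)) Rel M fun x => f (base x)) ∧
  ∀ (M : ℕ) (η : Cn b → ℝ), ContDiffOn ℝ ∞ η (Bd c 2) →
    (∀ U t, PBK c P U t → ∀ z ∈ U, η (t.g z) = η z) →
    Wt (tubeK k (Bd c 2)) Rel (M + 1) (fun x => Real.exp (-(M * Φ (base x)) - η (base x))) ∧
    ∀ x ∈ tubeK k (Bd c 2), ∀ v,
      lev (fun y => Real.log (Real.exp (-(M * Φ (base y)) - η (base y)))) x v =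
        - (M * lev Φ (base x) (base v)) - lev η (base x) (base v)

/-- LOCZK. Isolating balls. PROOF. As SP LOCZ (`Helper87/SP/LOCZ.lean`: copy it). -/
def S_LOCZK : Prop := ∀ {b k N : ℕ} (c : Fin N → Cn b) (R : ℝ) (P : Set (Cn b) → TriK b k → Prop)
  (Φ : Cn b → ℝ) (Hf : Cn b → Matrix (Fin k) (Fin k) ℂ) (C : ℝ), AFolK c R P Φ Hf C →
  ∀ (n : Fin N → ℕ) (s : ∀ i, Fin (n i) → TriK b k),
  GClK c P n s → ∀ i, ∀ z₀ ∈ ball (c i) 2, ∃ r₀ : ℝ, 0 < r₀ ∧ (b : ℝ) * r₀ ^ 2 ≤ 1 / 2 ∧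
    closedBall z₀ r₀ ⊆ ball (c i) 2 ∧
    ∀ l, (∃ z ∈ closedBall z₀ r₀, (s i l).g z ∈ closedBall z₀ r₀) → (s i l).g z₀ = z₀

/-- A cut-off function at `z₀` with the isolating property. -/
structure CutOffK {b k N : ℕ} (c : Fin N → Cn b) (n : Fin N → ℕ)
    (s : ∀ i, Fin (n i) → TriK b k) (i : Fin N) (z₀ : Cn b) (r₀ r₁ : ℝ) (χ : Cn b → ℝ) : Prop where
  mem : z₀ ∈ ball (c i) 2
  pos : 0 < r₁
  lt : r₁ < r₀
  small : b * r₀ ^ 2 ≤ 1 / 2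
  sub : closedBall z₀ r₀ ⊆ ball (c i) 2
  iso : ∀ l, (∃ z ∈ closedBall z₀ r₀, (s i l).g z ∈ closedBall z₀ r₀) → (s i l).g z₀ = z₀
  smooth : ContDiff ℝ ∞ χ
  range : ∀ z, 0 ≤ χ z ∧ χ z ≤ 1
  supp : ∀ z, z ∉ closedBall z₀ r₀ → χ z = 0
  one : ∀ z ∈ ball z₀ r₁, χ z = 1

/-- SONEK. The smooth section. USES: BSUMK. PROOF. As SP SONE (`Helper93/SP/SONE.lean`: copy it). -/
def S_SONEK : Prop := ∀ {b k N : ℕ} (c : Fin N → Cn b) (R : ℝ) (P : Set (Cn b) → TriK b k → Prop)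
  (Φ : Cn b → ℝ) (Hf : Cn b → Matrix (Fin k) (Fin k) ℂ) (C : ℝ), AFolK c R P Φ Hf C →
  ∀ (n : Fin N → ℕ) (s : ∀ i, Fin (n i) → TriK b k),
  GClK c P n s → ∀ i z₀ r₀ r₁ χ, CutOffK c n s i z₀ r₀ r₁ χ →
  ∃ r₂ > 0, ∀ M : ℕ, JMK c P M → bsumK c n s M (fun z => (χ z : ℂ)) z₀ ≠ 0 ∧
    DifferentiableOn ℂ (bsumK c n s M fun z => (χ z : ℂ)) (ball z₀ r₂) ∧
    ∀ j, ∀ z ∈ ball (c j) 2, (∃ l, ‖(s j l).g z - z₀‖ < r₂) →
      ∀ p, cdb p (bsumK c n s M fun z => (χ z : ℂ)) z = 0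

/-- ETAK. The singular weights. USES: LMF, BSUMK. PROOF. As SP ETA (`Helper35/SP/ETA.lean`: copy it). -/
def S_ETAK : Prop := ∀ {b k N : ℕ} (c : Fin N → Cn b) (R : ℝ) (P : Set (Cn b) → TriK b k → Prop)
  (Φ : Cn b → ℝ) (Hf : Cn b → Matrix (Fin k) (Fin k) ℂ) (C : ℝ), AFolK c R P Φ Hf C →
  ∀ (n : Fin N → ℕ) (s : ∀ i, Fin (n i) → TriK b k),
  GClK c P n s → ∀ i z₀ r₀ r₁ χ, CutOffK c n s i z₀ r₀ r₁ χ → ∀ r₂ > 0,
  ∃ (η : ℝ → Cn b → ℝ) (K r₃ : ℝ), 0 < K ∧ 0 < r₃ ∧ ball z₀ r₃ ⊆ ball (c i) 2 ∧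
  ∀ ε, 0 < ε → ε ≤ 1 / 2 → ContDiffOn ℝ ∞ (η ε) (Bd c 2) ∧
    (∀ U t, PBK c P U t → ∀ z ∈ U, η ε (t.g z) = η ε z) ∧ (∀ z ∈ Bd c 2, η ε z ≤ 0) ∧
    (∀ z ∈ Bd c 2, ∀ e, - K * lev Φ z e ≤ lev (η ε) z e) ∧
    (∀ j, ∀ z ∈ ball (c j) 2, (∀ l, r₂ ≤ ‖(s j l).g z - z₀‖) → - K ≤ η ε z) ∧
    ∀ z ∈ ball z₀ r₃, η ε z ≤ b * Real.log (K * (‖z - z₀‖ ^ 2 + ε ^ 2))

/-- UESTK. The estimate. USES: SP WIRT, LMF, DETI, BOX, PROJ, BOCH. PROOF. As SP UEST (`Helper8/SP/UEST.lean`: copy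
it): only the components of `∂̄s` in the base directions occur, `s = f ∘ base`. -/
def S_UESTK : Prop := ∀ {b k N : ℕ} {G : Type u} [Group G] (c : Fin N → Cn b) (R : ℝ)
  (Rel : G → Cn (b + k) → Cn (b + k) → Prop) (P : Set (Cn b) → TriK b k → Prop) (Φ : Cn b → ℝ)
  (Hf : Cn b → Matrix (Fin k) (Fin k) ℂ) (C : ℝ)
  (H : Cn (b + k) → Matrix (Fin (b + k)) (Fin (b + k)) ℂ), FEtK c R Rel P Φ Hf C H →
  ∀ κ, IsPUE (tubeK k (Bd c 2)) Rel κ → ∀ (M : ℕ) (W : Cn (b + k) → ℝ),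
  Wt (tubeK k (Bd c 2)) Rel M W →
  (∀ x ∈ tubeK k (Bd c 2), ∀ v, lev Φ (base x) (base v) ≤ - lev (fun y => Real.log (W y)) x v) →
  ∀ f : Cn b → ℂ, ContDiffOn ℝ ∞ f (Bd c 2) →
  Sec (tubeK k (Bd c 2)) Rel M (fun x => f (base x)) →
  (∀ z ∈ Bd c 2, 0 ≤ qdb Φ f z ∧ ((∀ j, cdb j f z = 0) → qdb Φ f z = 0)) ∧
  ContinuousOn (qdb Φ f) (Bd c 2) ∧
  ∃ g : Cn (b + k) → ℂ, Sec (tubeK k (Bd c 2)) Rel M g ∧
    DifferentiableOn ℂ g (tubeK k (Bd c 2)) ∧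
    nsE (tubeK k (Bd c 2)) κ W (fun x => f (base x) - g x) ≤
      ∫ x in tubeK k (Bd c 2), κ x * W x * qdb Φ f (base x)

/-- XLIMK. A section which does not vanish over `z₀`. USES: GFINK, MZK, BSUMK, SECWK, LOCZK, SONEK, ETAK, UESTK,
SP PUE2, NONI, LCPT. PROOF. As SP XLIM (`Helper19/SP/XLIM.lean`: copy it), with `prodS (ball z₀ r) (ball 0 r)` replaced
by `prodK (ball z₀ r) (ball 0 r)`. -/
def S_XLIMK : Prop := ∀ {b k N : ℕ} {G : Type u} [Group G] (c : Fin N → Cn b) (R : ℝ)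
  (Rel : G → Cn (b + k) → Cn (b + k) → Prop) (P : Set (Cn b) → TriK b k → Prop) (Φ : Cn b → ℝ)
  (Hf : Cn b → Matrix (Fin k) (Fin k) ℂ) (C : ℝ)
  (H : Cn (b + k) → Matrix (Fin (b + k)) (Fin (b + k)) ℂ), FEtK c R Rel P Φ Hf C H →
  DiscK c P → ∀ z₀ ∈ Bd c 2, ∃ (M : ℕ) (g : Cn (b + k) → ℂ), 1 ≤ M ∧
    Sec (tubeK k (Bd c 2)) Rel M g ∧ DifferentiableOn ℂ g (tubeK k (Bd c 2)) ∧ g (ptK z₀ 0) ≠ 0

/-- FCONK. Holomorphic sections are constant on the fibres. USES: FIBTK, SP ARRB.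
PROOF. `t_j` from `FIBTK` at `z`: for a small ball `U ∋ z`, `PBK c P U t_j`; the arrow `ptK y w ↦ ptK y (w + β_j y)` has Jacobian
determinant `1`, so `g (ptK z w) = g (ptK z (w + β_j z))` (`Sec`). The entire function `h w = g (ptK z w)` on `Cn k` has the
periods `β_j z`, `j < 2k`, which form a basis of `Cn k` over `ℝ` (`finrank ℝ (Cn k) = 2 k`), so `h` is bounded (every
point is equivalent modulo the periods to a point of the compact parallelotope `∑ r_j β_j z`, `0 ≤ r_j ≤ 1`) and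
constant (`Differentiable.apply_eq_apply_of_bounded`). See `Helper97/SP/FCON.lean`. -/
def S_FCONK : Prop := ∀ {b k N : ℕ} {G : Type u} [Group G] (c : Fin N → Cn b) (R : ℝ)
  (Rel : G → Cn (b + k) → Cn (b + k) → Prop) (P : Set (Cn b) → TriK b k → Prop) (Φ : Cn b → ℝ)
  (Hf : Cn b → Matrix (Fin k) (Fin k) ℂ) (C : ℝ)
  (H : Cn (b + k) → Matrix (Fin (b + k)) (Fin (b + k)) ℂ), FEtK c R Rel P Φ Hf C H →
  DiscK c P → ∀ (M : ℕ) (g : Cn (b + k) → ℂ), Sec (tubeK k (Bd c 2)) Rel M g →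
  DifferentiableOn ℂ g (tubeK k (Bd c 2)) → ∀ z ∈ Bd c 2, ∀ w w' : Cn k,
    g (ptK z w) = g (ptK z w')

/-- SECTK. One weight for all points. USES: XLIMK, FCONK. PROOF. As SP SECT (`Helper37/SP/SECT.lean`: copy it). -/
def S_SECTK : Prop := ∀ {b k N : ℕ} {G : Type u} [Group G] (c : Fin N → Cn b) (R : ℝ)
  (Rel : G → Cn (b + k) → Cn (b + k) → Prop) (P : Set (Cn b) → TriK b k → Prop) (Φ : Cn b → ℝ)
  (Hf : Cn b → Matrix (Fin k) (Fin k) ℂ) (C : ℝ)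
  (H : Cn (b + k) → Matrix (Fin (b + k)) (Fin (b + k)) ℂ), FEtK c R Rel P Φ Hf C H →
  DiscK c P → ∃ M : ℕ, 1 ≤ M ∧ ∀ z ∈ Bd c 1, ∃ g : Cn (b + k) → ℂ,
    Sec (tubeK k (Bd c 2)) Rel M g ∧ DifferentiableOn ℂ g (tubeK k (Bd c 2)) ∧
    ∀ w : Cn k, g (ptK z w) ≠ 0

/-- BACKK. From sections over `T` to canonical forms on `M`. USES: SP PARB. PROOF. As SP BACK (`Helper9/SP/BACK.lean`:
copy it), with `n = b + k`; of `LMapK` only `par` and `cov` are used, of `DataK` only `act`. -/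
def S_BACKK : Prop := ∀ {b k N : ℕ} {G : Type u} {M : Type v} [Group G] [MulAction G M]
  [TopologicalSpace M] [T2Space M] [ChartedSpace (Fin (b + k) → ℂ) M]
  [IsManifold 𝓘(ℂ, Fin (b + k) → ℂ) ω M] {h q : M → Matrix (Fin (b + k)) (Fin (b + k)) ℂ}
  {v : M → ℝ}, DataK b k G M h v → ∀ (c : Fin N → Cn b) (R : ℝ) (E : Cn (b + k) → M)
  (Φ : Cn b → ℝ) (Hf : Cn b → Matrix (Fin k) (Fin k) ℂ),
  LMapK G v q c R E Φ Hf → 2 ≤ R → ∀ (m : ℕ) (g : Cn (b + k) → ℂ),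
  Sec (tubeK k (Bd c 2)) (RelT (G := G) (tubeK k (Bd c 2)) E) m g →
  DifferentiableOn ℂ g (tubeK k (Bd c 2)) →
  ∃ f : M → ℂ, InvForm (b + k) (⊤ : Subgroup G) m f ∧
    ∀ y ∈ tubeK k (Bd c 2), g y ≠ 0 → f (E y) ≠ 0

/-- MAINRK. The theorem for `DataK` and (FL). USES: GEOK, PERG (`Helper36/RK/GoalsG.lean`), DISFK
(`Helper36/RK/GoalsI.lean`), SECTK, BACKK. -/
def S_MAINRK : Prop := ∀ {b k : ℕ} {G : Type u} {M : Type v} [Group G] [MulAction G M]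
  [TopologicalSpace M] [T2Space M] [ConnectedSpace M] [ChartedSpace (Fin (b + k) → ℂ) M]
  [IsManifold 𝓘(ℂ, Fin (b + k) → ℂ) ω M] {h q : M → Matrix (Fin (b + k)) (Fin (b + k)) ℂ}
  {v : M → ℝ}, 0 < b → DataK b k G M h v → FlatFol b k G M q v → OrbSemiample (b + k) G M

end Pool.Agent.Helper10.RK
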